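import Mathlib
import Pool.Agent.TH899.UG.AffM3

/-!
# The affine maps that preserve infinitely many primes generate a group of index at most three

Call an affine map `x ↦ (b x + c) / a` good if `a p - b q = c` has infinitely many solutions in
primes. There are `m` and a subgroup `H` of index at most three in the multiplicative group of the
rationals, containing `-1`, such that for `u > 0` and every rational `v` the map `x ↦ u x + v` is a
composition of `m` good maps if and only if `u` lies in `H`.

The theorem rests on the coloured Maynard-Tao theorem above one quarter for linear forms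
(`Pool.Agent.TH899.UG.quarterC`): two of any four classes of forms are hit.
-/

set_option autoImplicit false

namespace Pool.Agent.Results.MP_bf63dc_nt.AffineGroupIndexThree

theorem result : ∃ (m : ℕ) (H : Subgroup ℚˣ), -1 ∈ H ∧ 1 ≤ H.index ∧ H.index ≤ 3 ∧
    ∀ (u : ℚˣ) (v : ℚ), 0 < (u : ℚ) → (u ∈ H ↔ ∃ l : List (ℕ × ℕ × ℤ), l.length = m ∧
      (∀ t ∈ l, 1 ≤ t.1 ∧ 1 ≤ t.2.1 ∧ {pq : ℕ × ℕ | pq.1.Prime ∧ pq.2.Prime ∧
        (t.1 : ℤ) * pq.1 - t.2.1 * pq.2 = t.2.2}.Infinite) ∧
      ∀ x : ℚ, l.foldr (fun t y => ((t.2.1 : ℚ) * y + t.2.2) / t.1) x = u * x + v) :=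
  Pool.Agent.TH899.UG.Aff.main_int Pool.Agent.TH899.UG.fourI

end Pool.Agent.Results.MP_bf63dc_nt.AffineGroupIndexThree
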