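import Mathlib
import Pool.Agent.TH899.UG.LOD

/-!
# Either every pair `(a, b)` has a syndetic set of constants `c`, or almost all even numbers are
differences of primes

At least one of the following holds. (i) For all coprime `a, b ≥ 1` there is `C` such that every
interval of length `C` contains some `c` for which `(a, b, c)` satisfies the hypotheses of the
question and `a p - b q = c` has infinitely many prime solutions. (ii) The even numbers which are not
differences of two primes in infinitely many ways form a very thin set: there is `K` such that it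
contains no set `2 (X + Y)` with `K` elements in `X` and in `Y`, and each window of length `L` contains
at most `8 K L ^ (1 - 1 / K)` of its halves.

The theorem rests on the coloured Maynard-Tao theorem above one quarter for linear forms
(`Pool.Agent.TH899.UG.quarterC`): two of any four classes of forms are hit.
-/

set_option autoImplicit false

namespace Pool.Agent.Results.MP_bf63dc_nt.LinesOrDifferences

open Filter

/-- for every `η > 0` there are arbitrarily large `x` with at least `x ^ (1 - η)` members up to `x` -/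
def Many (F : Set ℕ) : Prop :=
  ∀ η : ℝ, 0 < η → ∃ᶠ x : ℝ in atTop, x ^ (1 - η) ≤ ({n : ℕ | n ∈ F ∧ (n : ℝ) ≤ x}.ncard : ℝ)

theorem result :
    (∀ a b : ℕ, 1 ≤ a → 1 ≤ b → Nat.Coprime a b → ∃ C : ℕ, ∀ u : ℤ, ∃ c : ℤ, u ≤ c ∧ c ≤ u + C ∧
      c ≠ 0 ∧ IsCoprime (a : ℤ) c ∧ IsCoprime (b : ℤ) c ∧ ¬ (Odd a ∧ Odd b ∧ Odd c) ∧
      Many {q : ℕ | q.Prime ∧ ∃ p : ℕ, p.Prime ∧ (a : ℤ) * p - b * q = c}) ∨
    (∃ K : ℕ, 1 ≤ K ∧
      (∀ X Y : Finset ℤ, K ≤ X.card → K ≤ Y.card → (∀ x ∈ X, ∀ y ∈ Y, 0 < x + y) →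
        ∃ x ∈ X, ∃ y ∈ Y, Many {q : ℕ | q.Prime ∧ ∃ p : ℕ, p.Prime ∧ (p : ℤ) - q = 2 * (x + y)}) ∧
      ∀ u L : ℕ, 1 ≤ L → ({k : ℕ | u < k ∧ k ≤ u + L ∧
        ¬ Many {q : ℕ | q.Prime ∧ (q + 2 * k).Prime}}.ncard : ℝ) ≤
          8 * K * (L : ℝ) ^ (1 - 1 / (K : ℝ))) := by
  classical
  rcases Pool.Agent.TH899.UG.LOD.lines_or_differences Pool.Agent.TH899.UG.fourC with h | h
  · left
    intro a b ha hb hab
    obtain ⟨C, hC⟩ := h a b ha hb hab
    refine ⟨C, fun u => ?_⟩
    obtain ⟨c, h1, h2, h3, -, h4, h5, h6, h7⟩ := hC u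
    exact ⟨c, h1, h2, h3, h4, h5, h6, h7⟩
  · right
    obtain ⟨K, hK, h1, h2⟩ := h
    refine ⟨K, hK, ?_, ?_⟩
    · intro X Y hX hY hpos
      obtain ⟨x, hx, y, hy, hxy⟩ := h1 X Y hX hY hpos
      refine ⟨x, hx, y, hy, ?_⟩
      refine Pool.Agent.H732R3.BigQ.Big.mono ?_ hxy
      rintro q ⟨hq1, hq2⟩
      refine ⟨hq1, _, hq2, ?_⟩
      have := hq2.pos
      omega
    · intro u L hL
      refine le_trans ?_ (h2 u L hL)
      rw [Nat.cast_le, ← Set.ncard_coe_finset]
      apply Set.ncard_le_ncard _ (Finset.finite_toSet _)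
      rintro k ⟨hk1, hk2, hk3⟩
      rw [Finset.mem_coe, Finset.mem_filter, Finset.mem_Ioc]
      refine ⟨⟨hk1, hk2⟩, fun hPb => hk3 ?_⟩
      refine Pool.Agent.H732R3.BigQ.Big.mono ?_ hPb
      rintro q ⟨hq1, hq2⟩
      refine ⟨hq1, ?_⟩
      have h3 : ((q : ℤ) + 2 * (k : ℤ)).toNat = q + 2 * k := by omega
      rwa [h3] at hq2

end Pool.Agent.Results.MP_bf63dc_nt.LinesOrDifferences
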