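import Pool.Agent.TH935.LF12

/-!
# Prime solutions of `a p - b q = c` for almost all `c` in thin families of nearly minimal additive energy

Definitions used from `Pool.Agent.H560R3.GB`: `C₂`: the twin prime constant
`∏_{p > 2} (1 - 1 / (p - 1) ^ 2)`; `sing n`: the singular series `2 C₂ ∏_{p ∣ n, p > 2} (p - 1) / (p - 2)`.
-/

set_option autoImplicit false

namespace Pool.Agent.Results.MP_bf63dc_nt.ThinFamilies

open Finset Pool.Agent.H560R3.GB

/-- The number of pairs of primes `(p, q)` with `a p - b q = c` and `y₁ < q ≤ y₂`. -/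
noncomputable def sols (a b : ℕ) (c : ℤ) (y₁ y₂ : ℕ) : ℕ :=
  Nat.card {w : ℕ × ℕ // w.1.Prime ∧ w.2.Prime ∧ (a : ℤ) * w.1 - b * w.2 = c ∧ y₁ < w.2 ∧ w.2 ≤ y₂}

/-- The predicted number of pairs of primes `(p, q)` with `a p - b q = c` and `y₁ < q ≤ y₂`, for windows
`(y₁, y₂]` near `N`. -/
noncomputable def pred (N a b : ℕ) (c : ℤ) (y₁ y₂ : ℕ) : ℝ :=
  sing (a * b * c.natAbs) * ((y₂ : ℝ) - y₁) / (a * Real.log N ^ 2)

/-- For all `a, b ≥ 1` such that `a`, `b`, `c` are pairwise relatively prime and not all odd and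
`a, b ≤ log ^ D N`, and all `y₁ < y₂ ≤ B N` with `y₂ - y₁ ≥ N / log ^ A N` and `c + b y₁ ≥ 0`, the number of
pairs of primes `(p, q)` with `a p - b q = c` and `y₁ < q ≤ y₂` agrees with its prediction up to a relative
error of at most `ε`. -/
def Holds (ε : ℝ) (A B D N : ℕ) (c : ℤ) : Prop :=
  ∀ a b : ℕ, 1 ≤ a → (a : ℝ) ≤ Real.log N ^ D → 1 ≤ b → (b : ℝ) ≤ Real.log N ^ D →
    a.Coprime b → IsCoprime (a : ℤ) c → IsCoprime (b : ℤ) c → ¬ (Odd a ∧ Odd b ∧ Odd c) →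
    ∀ y₁ y₂ : ℕ, y₁ < y₂ → y₂ ≤ B * N → (N : ℝ) / Real.log N ^ A ≤ (y₂ : ℝ) - y₁ → 0 ≤ c + b * (y₁ : ℤ) →
      |(sols a b c y₁ y₂ : ℝ) - pred N a b c y₁ y₂| ≤ ε * pred N a b c y₁ y₂

/-- The additive energy of order `h` of a finite family of integers `v i`: the number of solutions of
`v (a 1) + ... + v (a h) = v (b 1) + ... + v (b h)`. -/
noncomputable def energy (h : ℕ) {ι : Type} [Fintype ι] (v : ι → ℤ) : ℕ :=
  Nat.card {q : (Fin h → ι) × (Fin h → ι) // ∑ j, v (q.1 j) = ∑ j, v (q.2 j)}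

/-- The number of representations of `t` as `v (a 1) + ... + v (a h)`. -/
noncomputable def reps (h : ℕ) {ι : Type} [Fintype ι] (v : ι → ℤ) (t : ℤ) : ℕ :=
  Nat.card {a : Fin h → ι // ∑ j, v (a j) = t}

open Classical in
/-- The number of the members `v i` of the family which are different from `0`, and for which `Holds`
fails. -/
noncomputable def exceptions (ε : ℝ) (A B D N : ℕ) {ι : Type} [Fintype ι] (v : ι → ℤ) : ℕ :=
  (univ.filter (fun i => v i ≠ 0 ∧ ¬ Holds ε A B D N (v i))).card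

open Pool.Agent.TH935.LF in
lemma sols_eq (a b : ℕ) (c : ℤ) (y₁ y₂ : ℕ) (ha : 1 ≤ a) : sols a b c y₁ y₂ = cn a b c y₁ y₂ := by
  classical
  unfold sols cn
  have e : Nat.card {w : ℕ × ℕ // w.1.Prime ∧ w.2.Prime ∧ (a : ℤ) * w.1 - b * w.2 = c ∧ y₁ < w.2 ∧ w.2 ≤ y₂} =
      Nat.card {q : ℕ // q ∈ (Ioc y₁ y₂).filter (fun q : ℕ => q.Prime ∧ ∃ p : ℕ, p.Prime ∧ (a : ℤ) * p = c + b * q)} := by
    apply Nat.card_congr
    refine Equiv.ofBijective (fun w => ⟨w.1.2, ?_⟩) ⟨?_, ?_⟩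
    · obtain ⟨⟨p, q⟩, hp, hq, he, h1, h2⟩ := w
      rw [mem_filter, mem_Ioc]
      exact ⟨⟨h1, h2⟩, hq, p, hp, by simp only at he ⊢; linarith⟩
    · rintro ⟨⟨p, q⟩, hp, hq, he, h1, h2⟩ ⟨⟨p', q'⟩, hp', hq', he', h1', h2'⟩ hw
      simp only [Subtype.mk.injEq] at hw he he'
      subst hw
      have h3 : (a : ℤ) * p = a * p' := by linarith
      have h4 : (p : ℤ) = p' := mul_left_cancel₀ (by exact_mod_cast (by omega : a ≠ 0)) h3
      have h5 : p = p' := by exact_mod_cast h4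
      subst h5
      rfl
    · rintro ⟨q, hq⟩
      rw [mem_filter, mem_Ioc] at hq
      obtain ⟨⟨h1, h2⟩, hq', p, hp, he⟩ := hq
      exact ⟨⟨⟨p, q⟩, hp, hq', by simp only; linarith, h1, h2⟩, rfl⟩
  rw [e, Nat.card_eq_fintype_card, Fintype.card_coe]

lemma not_odd (a b : ℕ) (c : ℤ) (h : ¬ (Odd a ∧ Odd b ∧ Odd c)) : (2 : ℤ) ∣ a * b * c := by
  rw [← even_iff_two_dvd, Int.even_mul, Int.even_mul]
  by_contra h2
  push Not at h2
  apply h
  rw [Int.not_even_iff_odd, Int.not_even_iff_odd, Int.not_even_iff_odd] at h2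
  exact ⟨by exact_mod_cast h2.1.1, by exact_mod_cast h2.1.2, h2.2⟩

lemma holds_of (ε : ℝ) (A B D N : ℕ) (c : ℤ) (h : Pool.Agent.TH935.LF.HW ε A B D N c) : Holds ε A B D N c := by
  intro a b ha haL hb hbL hab hac hbc hodd y₁ y₂ h12 hy2 hΔ hpos
  have hb0 : (0 : ℤ) < b := by exact_mod_cast hb
  have key := h a b ha haL (by omega) (by rw [Int.natAbs_natCast]; exact hbL) (Nat.isCoprime_iff_coprime.2 hab) hac hbc
    (not_odd a b c hodd) y₁ y₂ h12 hy2 hΔ (by
      intro q hq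
      have h1 : (y₁ : ℤ) + 1 ≤ q := by exact_mod_cast (mem_Ioc.1 hq).1
      nlinarith)
  have e : ((a : ℤ) * b * c).natAbs = a * b * c.natAbs := by
    rw [Int.natAbs_mul, Int.natAbs_mul, Int.natAbs_natCast, Int.natAbs_natCast]
  rw [e] at key
  rw [sols_eq a b c y₁ y₂ ha]
  exact key

theorem first (h A B C D U : ℕ) (ε : ℝ) (hε : 0 < ε) :
    ∃ N₀ : ℕ, ∀ N : ℕ, N₀ ≤ N → ∀ (ι : Type) [Fintype ι] (v : ι → ℤ),
      (∀ i, |v i| ≤ B * N) →
      (energy h v : ℝ) * N ≤ Real.log N ^ C * (Fintype.card ι : ℝ) ^ (2 * h) →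
      (exceptions ε A B D N v : ℝ) ≤ Fintype.card ι / Real.log N ^ U := by
  classical
  obtain ⟨N₀, h0⟩ := Pool.Agent.TH935.LF.transferZ h B C U (Holds ε A B D) (by
    intro C U
    obtain ⟨N₀, h1⟩ := Pool.Agent.TH935.LF.fam_lin h A B C D U (min ε (1 / 2)) (lt_min hε (by norm_num)) (min_le_right _ _)
    refine ⟨N₀, fun N hN x s hs hE S hSx hS => h1 N hN x s hs hE S hSx fun m hm hG => hS m hm ?_⟩
    apply holds_of
    intro a b ha haL hb hbL hab hac hbc h2 y₁ y₂ h12 hy2 hΔ hpos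
    refine (hG a b ha haL hb hbL hab hac hbc h2 y₁ y₂ h12 hy2 hΔ hpos).trans ?_
    apply mul_le_mul_of_nonneg_right (min_le_left _ _)
    have h3 : (0 : ℝ) ≤ (y₂ : ℝ) - y₁ := by
      have : (y₁ : ℝ) ≤ y₂ := by exact_mod_cast h12.le
      linarith
    have h4 : 0 ≤ sing ((a : ℤ) * b * s m).natAbs := by
      have := Pool.Agent.W93.GB.one_le_sing ((a : ℤ) * b * s m).natAbs
      linarith
    positivity)
  refine ⟨N₀, fun N hN ι _ v hv hE => ?_⟩
  unfold exceptions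
  refine h0 N hN ι v hv hE _ ?_
  intro i hi
  rw [mem_filter] at hi
  exact hi.2

/-- Let `h`, `A`, `B`, `C`, `D`, `U` and `ε > 0` be fixed, and let `N` be large. Let `v i`, `i ∈ ι`, be an
arbitrary finite family of integers with `|v i| ≤ B N`.

* Suppose that the additive energy of order `h` of the family is at most `log ^ C N` times
  `(#ι) ^ (2 h) / N` (up to the power of the logarithm this is the least possible energy of a family with
  members in `[-N, N]`, and the family may have as few as `N ^ (1 / h)` members). Then for all members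
  `c ≠ 0` of the family, with at most `#ι / log ^ U N` exceptions, the following holds simultaneously for all
  `a, b ≤ log ^ D N` such that `a`, `b`, `c` are pairwise relatively prime and not all odd: in every window
  `y₁ < q ≤ y₂` with `y₂ ≤ B N`, `y₂ - y₁ ≥ N / log ^ A N` and `c + b y₁ ≥ 0`, the equation `a p - b q = c`
  has the expected number `(1 + O(ε)) sing (a b |c|) (y₂ - y₁) / (a log ^ 2 N)` of prime solutions `(p, q)`.
* In particular this holds if no integer has more than `log ^ C N` representations as a sum of `h` members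
  of the family, and `(#ι) ^ h ≥ N / log ^ C N`. -/
theorem result (h A B C D U : ℕ) (ε : ℝ) (hε : 0 < ε) :
    (∃ N₀ : ℕ, ∀ N : ℕ, N₀ ≤ N → ∀ (ι : Type) [Fintype ι] (v : ι → ℤ),
      (∀ i, |v i| ≤ B * N) →
      (energy h v : ℝ) * N ≤ Real.log N ^ C * (Fintype.card ι : ℝ) ^ (2 * h) →
      (exceptions ε A B D N v : ℝ) ≤ Fintype.card ι / Real.log N ^ U) ∧
    (∃ N₀ : ℕ, ∀ N : ℕ, N₀ ≤ N → ∀ (ι : Type) [Fintype ι] (v : ι → ℤ),
      (∀ i, |v i| ≤ B * N) →
      (∀ t, (reps h v t : ℝ) ≤ Real.log N ^ C) →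
      (N : ℝ) ≤ Real.log N ^ C * (Fintype.card ι : ℝ) ^ h →
      (exceptions ε A B D N v : ℝ) ≤ Fintype.card ι / Real.log N ^ U) := by
  refine ⟨first h A B C D U ε hε, ?_⟩
  obtain ⟨N₀, h0⟩ := first h A B (2 * C) D U ε hε
  obtain ⟨N₁, h1⟩ := Pool.Agent.H373R2.T7.ev_L' 1
  refine ⟨N₀ + N₁, fun N hN ι _ v hv hJ hx => ?_⟩
  apply h0 N (by omega) ι v hv
  have hL := h1 N (by omega)
  have hL0 : 0 ≤ Real.log N := by linarith
  have h2 : (energy h v : ℝ) ≤ (Fintype.card ι : ℝ) ^ h * Real.log N ^ C :=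
    Pool.Agent.TH935.GF.En_le h v _ hJ
  calc (energy h v : ℝ) * N ≤ ((Fintype.card ι : ℝ) ^ h * Real.log N ^ C) * (Real.log N ^ C * (Fintype.card ι : ℝ) ^ h) :=
        mul_le_mul h2 hx (Nat.cast_nonneg _) (by positivity)
    _ = Real.log N ^ (2 * C) * (Fintype.card ι : ℝ) ^ (2 * h) := by ring

end Pool.Agent.Results.MP_bf63dc_nt.ThinFamilies
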