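import Mathlib
import Pool.Agent.TH899.UG.PairsP

/-!
# A third of all pairs of linear forms, with a power saving

There are `C` and `δ > 0` such that in every finite set `V` of linear forms `a x + b` (`a > 0`), any
four of which have no fixed prime divisor, at least `|V| ^ 2 / 3 - C |V| ^ (2 - δ)` of the ordered pairs
`(a x + b, a' x + b')` are such that the equation `a p - a' q = a b' - a' b` has many solutions in
primes `p`, `q`: at least `x ^ (1 - η)` primes `q ≤ x`, for arbitrarily large `x`, for every `η > 0`.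

The theorem rests on the coloured Maynard-Tao theorem above one quarter for linear forms
(`Pool.Agent.TH899.UG.quarterC`): two of any four classes of forms are hit.
-/

set_option autoImplicit false

namespace Pool.Agent.Results.MP_bf63dc_nt.ThirdOfPairs

open Filter Finset

theorem result : ∃ C δ : ℝ, 0 < δ ∧ ∀ V : Finset (ℤ × ℤ), (∀ f ∈ V, 0 < f.1) →
    (∀ f : Fin 4 → ℤ × ℤ, (∀ i, f i ∈ V) →
      ∀ p : ℕ, p.Prime → ∃ n : ℤ, ∀ i, ¬ ((p : ℤ) ∣ (f i).1 * n + (f i).2)) →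
    1 / 3 * (V.card : ℝ) ^ 2 - C * (V.card : ℝ) ^ (2 - δ) ≤
      ({x : (ℤ × ℤ) × (ℤ × ℤ) | x.1 ∈ V ∧ x.2 ∈ V ∧
        {y : ℕ × ℕ | y.1.Prime ∧ y.2.Prime ∧
          x.1.1 * (y.1 : ℤ) - x.2.1 * (y.2 : ℤ) = x.1.1 * x.2.2 - x.2.1 * x.1.2}.Infinite ∧
        ∀ η : ℝ, 0 < η → ∃ᶠ z : ℝ in atTop, z ^ (1 - η) ≤ ({q : ℕ | (q.Prime ∧ ∃ p : ℕ, p.Prime ∧
          x.1.1 * (p : ℤ) - x.2.1 * (q : ℤ) = x.1.1 * x.2.2 - x.2.1 * x.1.2) ∧
            (q : ℝ) ≤ z}.ncard : ℝ)}.ncard : ℝ) := by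
  classical
  obtain ⟨C, δ, hδ, H⟩ := Pool.Agent.TH899.UG.pairs_third
  refine ⟨C, δ, hδ, fun V hpos hadm => (H V hpos hadm).trans ?_⟩
  rw [Nat.cast_le, ← Set.ncard_coe_finset]
  apply Set.ncard_le_ncard
  · rintro ⟨f, g⟩ hx
    rw [mem_coe, mem_filter, mem_product] at hx
    obtain ⟨⟨hf, hg⟩, hpp⟩ := hx
    have hfpos : 0 < f.1 := hpos f hf
    have hbig : Pool.Agent.H732R3.BigQ.Big {q : ℕ | q.Prime ∧ ∃ p : ℕ, p.Prime ∧
        f.1 * (p : ℤ) - g.1 * (q : ℤ) = f.1 * g.2 - g.1 * f.2} := by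
      have hfz : ((f.1.toNat : ℕ) : ℤ) = f.1 := Int.toNat_of_nonneg hfpos.le
      refine Pool.Agent.H732R3.BigQ.Big.affine hpp f.1.toNat f.2 (by omega)
        (fun n => (f.1 * (n : ℤ) + f.2).toNat) ?_ ?_
      · intro n hn
        rw [hfz]
        exact Int.toNat_of_nonneg hn.1.1.le
      · intro n hn
        obtain ⟨⟨h1, h2⟩, h3, h4⟩ := hn
        refine ⟨?_, (g.1 * (n : ℤ) + g.2).toNat, ?_, ?_⟩
        · rw [Nat.prime_iff_prime_int, Int.toNat_of_nonneg h1.le]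
          exact h2
        · rw [Nat.prime_iff_prime_int, Int.toNat_of_nonneg h3.le]
          exact h4
        · rw [Int.toNat_of_nonneg h1.le, Int.toNat_of_nonneg h3.le]
          ring
    refine ⟨hf, hg, ?_, hbig⟩
    apply Set.Infinite.of_image Prod.snd
    refine hbig.infinite.mono ?_
    rintro q ⟨hq, p, hp, hpq⟩
    exact ⟨(p, q), ⟨hp, hq, hpq⟩, rfl⟩
  · apply (V ×ˢ V).finite_toSet.subset
    rintro x ⟨h1, h2, _⟩
    rw [mem_coe, mem_product]
    exact ⟨h1, h2⟩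

end Pool.Agent.Results.MP_bf63dc_nt.ThirdOfPairs
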